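import Pool.Agent.NuDelta.Defs
import Pool.Agent.Lib_helper62.OrthTower

namespace Pool.Agent.Results.MP_83e192_co.NuMinDegree

open Pool.Agent.NuDelta Matrix Pool.Agent.Lib_helper62

theorem nullity_eq {V : Type} [Fintype V] [DecidableEq V] (A : Matrix V V ℝ) :
    A.rank + nullity A = Fintype.card V := by
  unfold nullity Matrix.rank
  rw [LinearMap.finrank_range_add_finrank_ker]
  exact Module.finrank_fintype_fun_eq_card ℝ

theorem exists_matrix {V : Type} [Fintype V] [DecidableEq V] (G : SimpleGraph V)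
    [DecidableRel G.Adj] : ∃ k ∈ NuSet G, G.minDegree ≤ k := by
  rcases isEmpty_or_nonempty V with hV | hV
  · refine ⟨_, ⟨0, ⟨Matrix.isSymm_zero, fun i => (hV.false i).elim⟩, Matrix.PosSemidef.zero,
      fun X _ _ _ _ => ?_, rfl⟩, ?_⟩
    · ext i
      exact (hV.false i).elim
    · have h : G.minDegree = 0 := by simp [SimpleGraph.minDegree]
      rw [h]
      exact Nat.zero_le _
  · have hδ : G.minDegree ≤ Fintype.card V := G.minDegree_lt_card.le
    obtain ⟨y, hy1, hy2⟩ := main (F := ℝ) G (d := Fintype.card V - G.minDegree) (by omega)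
    set U : Matrix V (Fin (Fintype.card V - G.minDegree)) ℝ := Matrix.of y with hU
    have hA : ∀ i j, (U * Uᴴ) i j = y i ⬝ᵥ y j := by
      intro i j
      simp [hU, Matrix.mul_apply, dotProduct]
    have hpsd : (U * Uᴴ).PosSemidef := Matrix.posSemidef_self_mul_conjTranspose U
    refine ⟨_, ⟨U * Uᴴ, ⟨?_, fun i j hij => ?_⟩, hpsd, fun X hX hd hE hAX => ?_, rfl⟩, ?_⟩
    · refine Matrix.IsSymm.ext fun i j => ?_
      rw [hA, hA, dotProduct_comm]
    · rw [hA]
      exact hy1 i j hij
    · refine hy2 X hX (fun v w h => ?_) fun w => ?_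
      · rcases h with rfl | h
        · exact hd v
        · exact hE v w h
      · have h1 : Uᴴ * X = 0 := (Matrix.self_mul_conjTranspose_mul_eq_zero U X).mp hAX
        funext c
        have h2 := congrFun (congrFun h1 c) w
        simp only [Matrix.mul_apply, hU, Matrix.conjTranspose_apply, Matrix.of_apply, star_trivial,
          Matrix.zero_apply] at h2
        rw [Finset.sum_apply, Pi.zero_apply, ← h2]
        refine Finset.sum_congr rfl fun v _ => ?_
        rw [Pi.smul_apply, smul_eq_mul, mul_comm]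
    · have h1 : (U * Uᴴ).rank ≤ Fintype.card V - G.minDegree :=
        (Matrix.rank_mul_le_left U Uᴴ).trans
          ((Matrix.rank_le_card_width U).trans_eq (Fintype.card_fin _))
      have h2 := nullity_eq (U * Uᴴ)
      omega

/-- `ν(G) ≥ δ(G)` for every finite graph `G`. -/
theorem result (V : Type) [Fintype V] [DecidableEq V] (G : SimpleGraph V) [DecidableRel G.Adj] :
    ∃ nu : ℕ, IsGreatest (NuSet G) nu ∧ G.minDegree ≤ nu := by
  obtain ⟨k, hk, hδ⟩ := exists_matrix G
  have hb : ∀ j ∈ NuSet G, j ≤ Fintype.card V := by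
    rintro j ⟨A, -, -, -, rfl⟩
    have := nullity_eq A
    omega
  obtain ⟨nu, h1, h2⟩ : ∃ nu, IsGreatest (NuSet G) nu :=
    ⟨sSup (NuSet G), Nat.sSup_mem ⟨k, hk⟩ ⟨_, hb⟩, fun j hj => le_csSup ⟨_, hb⟩ hj⟩
  exact ⟨nu, ⟨h1, h2⟩, hδ.trans (h2 hk)⟩

end Pool.Agent.Results.MP_83e192_co.NuMinDegree
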